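import Pool.Agent.N545.KL.Main

/-!
# A convex closed curve whose perimeter is bisected by every line through `O` is symmetric about `O`

`C = frontier K` for a compact convex set `K` of the plane with nonempty interior; the line through `O` with
the normal vector `u ≠ 0` bounds the two open half-planes `0 < ⟪u, x - O⟫` and `⟪u, x - O⟫ < 0`, and lengths of
parts of `C` are one-dimensional Hausdorff measures.

Proof: let `O = 0` (it is shown to be an interior point). The length measure of `C`, as a measure on cones, gives
the same mass to opposite half-planes, hence to opposite sectors, hence to `B` and `-B` for every Borel cone `B`.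
Apply this to the cone `B` over which `C` is farther from `0` than `-C`: the boundary of `K ∩ -K` has the same
length as `C`, so `K ∩ -K = K` by the strict monotonicity of the perimeter (Cauchy's formula).
-/

set_option autoImplicit false

open MeasureTheory

namespace Pool.Agent.Results.MP_7f2f72_gt.BisectingPoint

/-- If every line through `O` bisects the perimeter of the convex closed curve `frontier K`, then the
curve is centrally symmetric with respect to `O` (and `O` is an interior point of `K`). -/
theorem result (K : Set (EuclideanSpace ℝ (Fin 2))) (hK : IsCompact K) (hconv : Convex ℝ K)
    (hint : (interior K).Nonempty) (O : EuclideanSpace ℝ (Fin 2))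
    (hbisect : ∀ u : EuclideanSpace ℝ (Fin 2), u ≠ 0 →
      μH[1] (frontier K ∩ {x | 0 < inner ℝ u (x - O)}) =
        μH[1] (frontier K ∩ {x | inner ℝ u (x - O) < 0})) :
    O ∈ interior K ∧ (fun x => (2 : ℝ) • O - x) '' frontier K = frontier K := by
  obtain ⟨h1, -, h2⟩ := Pool.Agent.N545.KL.main hK hconv hint O hbisect
  exact ⟨h1, h2⟩

end Pool.Agent.Results.MP_7f2f72_gt.BisectingPoint
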